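import Pool.Agent.H73.PQR

open Pool.Agent.H73

/-- Disproof of the homogeneity conjecture for weakly symmetric Riemannian manifolds and for
geodesic orbit spaces. -/
theorem Pool.Agent.Results.MP_590cbb_gt.HopfCounterexample.result :
    ∃ (E : Type) (_ : NormedAddCommGroup E) (_ : NormedSpace ℝ E) (_ : FiniteDimensional ℝ E),
      ¬ HomogeneityConjecture (E := E) IsCompactWeaklySymmetricGO := by
  refine ⟨HQ, inferInstance, inferInstance, inferInstance, ?_⟩
  intro h
  exact not_homogeneous_N (h (Mf ⊥) (Mf Ai) (Gam Ai) (pN Ai)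
    ⟨(inferInstance : CompactSpace (Yq ⊥)), weaklySymmetric_M, geodesicOrbit_M⟩
    quotient_M constantDisplacement)
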