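import Pool.Agent.H14.HC.YF

open Pool.Agent.H73 Pool.Agent.H14.HC

/-- Disproof of the homogeneity conjecture for simply connected weakly symmetric Riemannian
manifolds. -/
theorem Pool.Agent.Results.MP_590cbb_gt.SimplyConnectedCounterexample.result :
    ∃ (E : Type) (_ : NormedAddCommGroup E) (_ : NormedSpace ℝ E) (_ : FiniteDimensional ℝ E),
      ¬ HomogeneityConjecture (E := E) IsSimplyConnectedWeaklySymmetric :=
  ⟨EE, inferInstance, inferInstance, inferInstance, not_conjecture⟩
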